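import Pool.Agent.helper19.HF.SpecA

set_option autoImplicit false

namespace Pool.Agent.HF

open Finset

theorem NES : NES_stmt := by
  classical
  intro hG g s N l₀ γ ε hs hε hγ0 hγ1 h1 h2 R hR hlR
  have key : ∀ n : ℕ, n ≤ N → ∃ Z : ℕ → ℕ, (∀ j, s ∣ Z j) ∧ ∀ i j, i < j → j < n → Z i + s * R ≤ Z j ∧
      (cw g (Z j - Z i - s * R) s (2 * R) : ℝ) ≤ (γ + 4 * (N + 1) * ε) * (2 * R) := by
    intro n
    induction n with
    | zero =>
      intro _
      exact ⟨fun _ => 0, fun _ => dvd_zero _, fun i j _ hj => absurd hj (Nat.not_lt_zero j)⟩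
    | succ n ih =>
      intro hn
      obtain ⟨Z, hZ1, hZ2⟩ := ih (by omega)
      obtain ⟨Y, hY1, hY2, hY3⟩ := hG g (fun Y => s ∣ Y) s N l₀ γ ε hs (fun Y hY => dvd_add hY (dvd_refl s)) hε hγ0 hγ1 h1 h2 R hR hlR
        ((range n).image (fun i => -((Z i / s : ℕ) : ℤ))) (le_trans card_image_le (by rw [card_range]; omega))
        (∑ i ∈ range n, Z i + s * R)
      refine ⟨Function.update Z n Y, ?_, ?_⟩
      · intro j
        by_cases hj : j = n
        · rw [hj, Function.update_self]; exact hY1
        · rw [Function.update_of_ne hj]; exact hZ1 j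
      · intro i j hij hj
        have hi : i ≠ n := by omega
        rw [Function.update_of_ne hi]
        by_cases hjn : j = n
        · rw [hjn, Function.update_self]
          have hin : i < n := by omega
          have hle : Z i ≤ ∑ i ∈ range n, Z i := single_le_sum (f := fun i => Z i) (fun _ _ => Nat.zero_le _) (mem_range.mpr hin)
          have hZY : Z i + s * R ≤ Y := le_trans (Nat.add_le_add_right hle _) hY2
          refine ⟨hZY, ?_⟩
          obtain ⟨Y', hY'1, hY'2, hY'3⟩ := hY3 (-((Z i / s : ℕ) : ℤ)) (mem_image_of_mem _ (mem_range.mpr hin))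
          have hdiv : (s : ℤ) * ((Z i / s : ℕ) : ℤ) = (Z i : ℤ) := by
            rw [← Nat.cast_mul, Nat.mul_div_cancel' (hZ1 i)]
          have hYeq : Y' = Y - Z i - s * R := by
            have h3 : (Y' : ℤ) = Y - Z i - s * R := by
              rw [hY'2, mul_neg, hdiv]; ring
            have h4 : ((Y - Z i - s * R : ℕ) : ℤ) = Y - Z i - s * R := by
              rw [Nat.cast_sub (by omega), Nat.cast_sub (by omega)]; push_cast; ring
            rw [← h4] at h3
            exact_mod_cast h3
          rw [← hYeq]
          exact hY'3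
        · rw [Function.update_of_ne hjn]
          exact hZ2 i j hij (by omega)
  exact key N le_rfl

end Pool.Agent.HF
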